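import Mathlib
import Pool.Agent.H104.ML.Stm

/-!
# Project ML (helper104), job CONJ
-/

set_option autoImplicit false

open Polynomial Finset

namespace Pool.Agent.Q299.ML

open Pool.Agent.H104.ML

open Classical in
/-- The multiplicity of a root. -/
theorem conj_mult {D : ℕ} (α : Fin D → ℂ) (z : ℂ) :
    (∏ s, (X - C (α s))).rootMultiplicity z = (univ.filter (fun s => α s = z)).card := by
  have h1 : (∏ s, (X - C (α s))).roots = (univ : Finset (Fin D)).val.map α := by
    have h2 : (∏ s, (X - C (α s))) = (((univ : Finset (Fin D)).val.map α).map fun a => X - C a).prod := by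
      rw [Multiset.map_map]
      rfl
    rw [h2, roots_multiset_prod_X_sub_C]
  rw [← count_roots, h1, Multiset.count_map]
  rw [← Finset.filter_val, ← Finset.card_def]
  congr 1
  ext s
  simp only [Finset.mem_filter, Finset.mem_univ, true_and]
  exact eq_comm

open Classical in
/-- Conjugate roots have the same multiplicity. -/
theorem conj_card {D : ℕ} (g : ℤ[X]) (α : Fin D → ℂ)
    (hg : g.map (Int.castRingHom ℂ) = ∏ s, (X - C (α s))) (z : ℂ) :
    (univ.filter (fun s => α s = (starRingEnd ℂ) z)).card = (univ.filter (fun s => α s = z)).card := by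
  have h1 : (∏ s, (X - C ((starRingEnd ℂ) (α s)))) = ∏ s, (X - C (α s)) := by
    have h2 : (g.map (Int.castRingHom ℂ)).map (starRingEnd ℂ) = g.map (Int.castRingHom ℂ) := by
      rw [Polynomial.map_map]
      congr 1
      exact RingHom.ext_int _ _
    rw [hg, Polynomial.map_prod] at h2
    rw [← h2]
    refine Finset.prod_congr rfl fun s _ => ?_
    rw [Polynomial.map_sub, Polynomial.map_X, Polynomial.map_C]
  have h3 := conj_mult (fun s => (starRingEnd ℂ) (α s)) z
  rw [h1, conj_mult α z] at h3
  rw [h3]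
  congr 1
  ext s
  simp only [Finset.mem_filter, Finset.mem_univ, true_and]
  constructor
  · intro h; rw [h, Complex.conj_conj]
  · intro h; rw [← h, Complex.conj_conj]

theorem t_CONJ (h : S_GRP) : S_CONJ := by
  classical
  intro g D α P hg i i'
  set F : ℂ → ℕ → ℂ := fun z t => (starRingEnd ℂ) (z ^ (i : ℕ) * (((P t).eval ((i : ℕ) : ℝ) : ℝ) : ℂ)) *
    (z ^ (i' : ℕ) * (((P t).eval ((i' : ℕ) : ℝ) : ℝ) : ℂ)) with hF
  have h1 : ∑ s, (starRingEnd ℂ) (Vm α P s i) * Vm α P s i' =
      ∑ z ∈ univ.image α, ∑ t ∈ range (univ.filter (fun s => α s = z)).card, F z t := by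
    rw [← (h D α).1 F]
    rfl
  have h2 : ∀ z t, F ((starRingEnd ℂ) z) t = (starRingEnd ℂ) (F z t) := by
    intro z t
    simp only [hF, map_mul, map_pow, Complex.conj_conj, Complex.conj_ofReal]
  have hmem : ∀ z, z ∈ univ.image α ↔ 0 < (univ.filter (fun s => α s = z)).card := by
    intro z
    rw [Finset.card_pos, Finset.mem_image]
    constructor
    · rintro ⟨s, _, hs⟩
      exact ⟨s, by simp [hs]⟩
    · rintro ⟨s, hs⟩
      exact ⟨s, Finset.mem_univ s, (Finset.mem_filter.mp hs).2⟩
  have hmem2 : ∀ z ∈ univ.image α, (starRingEnd ℂ) z ∈ univ.image α := by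
    intro z hz
    rw [hmem] at hz ⊢
    rw [conj_card g α hg z]
    exact hz
  rw [h1, ← Complex.conj_eq_iff_im, map_sum]
  refine Finset.sum_nbij' (starRingEnd ℂ) (starRingEnd ℂ) hmem2 hmem2 (fun z _ => Complex.conj_conj z)
    (fun z _ => Complex.conj_conj z) ?_
  intro z _
  rw [map_sum, conj_card g α hg z]
  refine Finset.sum_congr rfl fun t _ => ?_
  rw [h2]

end Pool.Agent.Q299.ML
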