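import Mathlib
import Pool.Agent.H104.ML.Stm

/-!
# Project ML (helper104), job GRP
-/

set_option autoImplicit false

open Polynomial Finset

namespace Pool.Agent.Q299.ML

open Pool.Agent.H104.ML

open Classical in
/-- The fibre over `z`: the values of `tau` are `0, 1, …`. -/
theorem grp_fib {D : ℕ} (α : Fin D → ℂ) (z : ℂ) :
    (univ.filter (fun s => α s = z)).image (tau α) = range (univ.filter (fun s => α s = z)).card ∧
    Set.InjOn (tau α) (univ.filter (fun s => α s = z) : Finset (Fin D)) := by
  set F : Finset (Fin D) := univ.filter (fun s => α s = z) with hF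
  have hmem : ∀ s, s ∈ F ↔ α s = z := fun s => by rw [hF, Finset.mem_filter]; simp
  have htau : ∀ s ∈ F, tau α s = (F.filter (fun r => r < s)).card := by
    intro s hs
    unfold tau
    congr 1
    ext r
    rw [Finset.mem_filter, Finset.mem_filter, hmem, (hmem s).1 hs]
    simp only [Finset.mem_univ, true_and]
    tauto
  have hmono : ∀ s ∈ F, ∀ s' ∈ F, s < s' → tau α s < tau α s' := by
    intro s hs s' hs' hlt
    rw [htau s hs, htau s' hs']
    refine Finset.card_lt_card ⟨?_, ?_⟩
    · intro r hr
      rw [Finset.mem_filter] at hr ⊢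
      exact ⟨hr.1, hr.2.trans hlt⟩
    · intro hsub
      have h1 := hsub (Finset.mem_filter.mpr ⟨hs, hlt⟩)
      exact lt_irrefl _ (Finset.mem_filter.mp h1).2
  have hinj : Set.InjOn (tau α) (F : Finset (Fin D)) := by
    intro s hs s' hs' heq
    rcases lt_trichotomy s s' with h | h | h
    · exact absurd heq (ne_of_lt (hmono s hs s' hs' h))
    · exact h
    · exact absurd heq.symm (ne_of_lt (hmono s' hs' s hs h))
  refine ⟨?_, hinj⟩
  refine Finset.eq_of_subset_of_card_le ?_ ?_
  · intro k hk
    obtain ⟨s, hs, rfl⟩ := Finset.mem_image.mp hk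
    rw [Finset.mem_range, htau s hs]
    refine Finset.card_lt_card ⟨Finset.filter_subset _ _, ?_⟩
    intro hsub
    exact lt_irrefl _ (Finset.mem_filter.mp (hsub hs)).2
  · rw [Finset.card_range, Finset.card_image_of_injOn hinj]

open Classical in
/-- Grouping by the value. -/
theorem grp_sum {D : ℕ} (α : Fin D → ℂ) (f : Fin D → ℝ) (g : ℂ → ℝ) (hfg : ∀ s, f s = g (α s)) :
    ∑ s, f s = ∑ z ∈ univ.image α, ((univ.filter (fun s => α s = z)).card : ℝ) * g z := by
  rw [← Finset.sum_fiberwise_of_maps_to (s := (univ : Finset (Fin D))) (t := univ.image α) (g := α)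
    (fun s _ => Finset.mem_image_of_mem α (Finset.mem_univ s))]
  refine Finset.sum_congr rfl fun z _ => ?_
  rw [← nsmul_eq_mul, ← Finset.sum_const]
  refine Finset.sum_congr rfl fun s hs => ?_
  rw [hfg, (Finset.mem_filter.mp hs).2]

theorem t_GRP : S_GRP := by
  classical
  intro D α
  constructor
  · intro f
    rw [← Finset.sum_fiberwise_of_maps_to (s := (univ : Finset (Fin D))) (t := univ.image α) (g := α)
      (fun s _ => Finset.mem_image_of_mem α (Finset.mem_univ s))]
    refine Finset.sum_congr rfl fun z _ => ?_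
    obtain ⟨h1, h2⟩ := grp_fib α z
    rw [← h1, Finset.sum_image h2]
    refine Finset.sum_congr rfl fun s hs => ?_
    rw [(Finset.mem_filter.mp hs).2]
  · set L : ℂ → ℂ → ℝ := fun z w => if z = w then 0 else Real.log ‖z - w‖ with hL
    have hLs : ∀ z w, L z w = L w z := by
      intro z w
      simp only [hL]
      by_cases h : z = w
      · rw [if_pos h, if_pos h.symm]
      · rw [if_neg h, if_neg (Ne.symm h), norm_sub_rev]
    have hA : ∑ s, ∑ r ∈ univ.filter (fun r => r < s ∧ α r ≠ α s), Real.log ‖α s - α r‖ =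
        ∑ s, ∑ r, if r < s then L (α s) (α r) else 0 := by
      refine Finset.sum_congr rfl fun s _ => ?_
      rw [Finset.sum_filter]
      refine Finset.sum_congr rfl fun r _ => ?_
      by_cases h1 : r < s
      · by_cases h2 : α s = α r
        · simp [hL, h2]
        · simp [hL, h1, h2, Ne.symm h2]
      · simp [h1]
    have hB : ∑ s, ∑ r, (if r < s then L (α s) (α r) else 0) =
        ∑ s, ∑ r, (if s < r then L (α s) (α r) else 0) := by
      rw [Finset.sum_comm]
      refine Finset.sum_congr rfl fun s _ => Finset.sum_congr rfl fun r _ => ?_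
      rw [hLs]
    have hC : ∑ s, ∑ r, (if r < s then L (α s) (α r) else 0) +
        ∑ s, ∑ r, (if s < r then L (α s) (α r) else 0) = ∑ s, ∑ r, L (α s) (α r) := by
      rw [← Finset.sum_add_distrib]
      refine Finset.sum_congr rfl fun s _ => ?_
      rw [← Finset.sum_add_distrib]
      refine Finset.sum_congr rfl fun r _ => ?_
      rcases lt_trichotomy r s with h | h | h
      · rw [if_pos h, if_neg (by exact not_lt.mpr h.le), add_zero]
      · subst h
        simp [hL]
      · rw [if_neg (by exact not_lt.mpr h.le), if_pos h, zero_add]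
    have hE : ∀ z ∈ univ.image α, ∑ r, L z (α r) = ∑ w ∈ (univ.image α).erase z,
        ((univ.filter (fun s => α s = w)).card : ℝ) * Real.log ‖z - w‖ := by
      intro z hz
      rw [grp_sum α (fun r => L z (α r)) (L z) (fun s => rfl), ← Finset.add_sum_erase _ _ hz]
      have h0 : L z z = 0 := by simp [hL]
      rw [h0, mul_zero, zero_add]
      refine Finset.sum_congr rfl fun w hw => ?_
      have h1 : z ≠ w := (Finset.ne_of_mem_erase hw).symm
      simp [hL, h1]
    have hF : ∑ s, ∑ r, L (α s) (α r) = ∑ z ∈ univ.image α, ∑ w ∈ (univ.image α).erase z,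
      ((univ.filter (fun s => α s = z)).card : ℝ) * ((univ.filter (fun s => α s = w)).card : ℝ) *
        Real.log ‖z - w‖ := by
      rw [grp_sum α (fun s => ∑ r, L (α s) (α r)) (fun z => ∑ r, L z (α r)) (fun s => rfl)]
      refine Finset.sum_congr rfl fun z hz => ?_
      rw [hE z hz, Finset.mul_sum]
      refine Finset.sum_congr rfl fun w _ => ?_
      ring
    rw [hA, ← hF, ← hC, ← hB]
    ring

end Pool.Agent.Q299.ML
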