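import Mathlib
import Pool.Agent.H104.ML.Stm

/-!
# Project ML (helper104), job LEAD
-/

set_option autoImplicit false

open Polynomial Finset

namespace Pool.Agent.Q299.ML

open Pool.Agent.H104.ML

/-- One factor `X - C α`: a difference. -/
theorem lead_step (α : ℂ) (p : ℂ[X]) (G : ℕ → ℂ) :
    ((X - C α) * p).sum (fun j c => c * G j) = p.sum (fun j c => c * (G (j + 1) - α * G j)) := by
  set N := p.natDegree + 1 with hN
  have hd : ((X - C α) * p).natDegree < N + 1 := by
    refine lt_of_le_of_lt natDegree_mul_le ?_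
    rw [natDegree_X_sub_C]
    omega
  rw [sum_over_range' _ (fun n => by simp) (N + 1) hd,
    sum_over_range' _ (fun n => by simp) N (by omega), Finset.sum_range_succ']
  have h0 : ((X - C α) * p).coeff 0 = - α * p.coeff 0 := by
    rw [mul_coeff_zero]; simp
  have h1 : ∀ j, ((X - C α) * p).coeff (j + 1) = p.coeff j - α * p.coeff (j + 1) := by
    intro j
    rw [sub_mul, coeff_sub, coeff_X_mul, coeff_C_mul]
  have h2 : ∑ j ∈ range N, p.coeff (j + 1) * G (j + 1) + p.coeff 0 * G 0 =
      ∑ j ∈ range N, p.coeff j * G j := by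
    rw [← Finset.sum_range_succ' (fun j => p.coeff j * G j), Finset.sum_range_succ,
      coeff_eq_zero_of_natDegree_lt (by omega : p.natDegree < N)]
    simp
  have h3 : ∀ j ∈ range N, ((X - C α) * p).coeff (j + 1) * G (j + 1) =
      p.coeff j * G (j + 1) - α * (p.coeff (j + 1) * G (j + 1)) := by
    intro j _
    rw [h1]; ring
  rw [Finset.sum_congr rfl h3, Finset.sum_sub_distrib, ← Finset.mul_sum, h0]
  have h4 : ∑ j ∈ range N, p.coeff j * (G (j + 1) - α * G j) =
      ∑ j ∈ range N, p.coeff j * G (j + 1) - α * ∑ j ∈ range N, p.coeff j * G j := by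
    rw [Finset.mul_sum, ← Finset.sum_sub_distrib]
    refine Finset.sum_congr rfl fun j _ => ?_
    ring
  rw [h4, ← h2]
  ring

/-- The difference of a polynomial. -/
theorem lead_diff (t : ℕ) (f : ℝ[X]) (hf : f.natDegree ≤ t + 1) :
    (taylor 1 f - f).natDegree ≤ t ∧ (taylor 1 f - f).coeff t = ((t : ℝ) + 1) * f.coeff (t + 1) := by
  constructor
  · rw [natDegree_le_iff_coeff_eq_zero]
    intro N hN
    have h1 : (hasseDeriv N f).natDegree ≤ 0 := by
      refine (natDegree_hasseDeriv_le f N).trans ?_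
      omega
    rw [coeff_sub, taylor_coeff, eq_C_of_natDegree_le_zero h1, eval_C, hasseDeriv_coeff]
    simp
  · have h1 : (hasseDeriv t f).natDegree < 2 := by
      refine lt_of_le_of_lt (natDegree_hasseDeriv_le f t) ?_
      omega
    rw [coeff_sub, taylor_coeff, eval_eq_sum_range' h1, Finset.sum_range_succ, Finset.sum_range_one,
      hasseDeriv_coeff, hasseDeriv_coeff]
    simp [add_comm 1 t]

theorem t_LEAD : S_LEAD := by
  intro t
  induction t with
  | zero =>
    intro α h f hf
    rw [eq_C_of_natDegree_le_zero hf]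
    simp only [pow_zero, one_mul, eval_C, coeff_C_zero, Nat.factorial_zero, Nat.cast_one, mul_one]
    rw [eval_eq_sum, sum_def, sum_def, Finset.mul_sum]
    refine Finset.sum_congr rfl fun j _ => ?_
    ring
  | succ t ih =>
    intro α h f hf
    obtain ⟨hd, hc⟩ := lead_diff t f hf
    have h1 := ih α h (taylor 1 f - f) hd
    have h2 : (X - C α) ^ (t + 1) * h = (X - C α) * ((X - C α) ^ t * h) := by ring
    have h3 : ((X - C α) ^ (t + 1) * h).sum (fun j c => c * α ^ j * ((f.eval (j : ℝ) : ℝ) : ℂ)) =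
        ((X - C α) * ((X - C α) ^ t * h)).sum (fun j c => c * (α ^ j * ((f.eval (j : ℝ) : ℝ) : ℂ))) := by
      rw [h2]
      simp only [mul_assoc]
    rw [h3, lead_step]
    have h4 : ((X - C α) ^ t * h).sum (fun j c => c * (α ^ (j + 1) * ((f.eval ((j + 1 : ℕ) : ℝ) : ℝ) : ℂ) -
        α * (α ^ j * ((f.eval (j : ℝ) : ℝ) : ℂ)))) =
        α * ((X - C α) ^ t * h).sum (fun j c => c * α ^ j *
          (((taylor 1 f - f).eval (j : ℝ) : ℝ) : ℂ)) := by
      rw [sum_def, sum_def, Finset.mul_sum]
      refine Finset.sum_congr rfl fun j _ => ?_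
      rw [eval_sub, taylor_eval]
      push_cast
      ring
    rw [h4, h1, hc, Nat.factorial_succ]
    push_cast
    ring

end Pool.Agent.Q299.ML
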