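import Mathlib
import Pool.Agent.H104.ML.Stm

/-!
# Project ML (helper104), job RES1
-/

set_option autoImplicit false

open Polynomial Finset

namespace Pool.Agent.Q299.ML

open Pool.Agent.H104.ML

theorem res1_prim (b : ℕ) (hb : 1 ≤ b) :
    cyclotomic b ℂ = ∏ z ∈ primitiveRoots b ℂ, (X - C z) :=
  cyclotomic_eq_prod_X_sub_primitiveRoots (Complex.isPrimitiveRoot_exp b (by omega))

theorem t_RES1 : S_RES1 := by
  classical
  intro b c hb hc hbc
  have hne : ∀ z ∈ primitiveRoots b ℂ, ∀ w ∈ primitiveRoots c ℂ, z - w ≠ 0 := by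
    intro z hz w hw h0
    rw [mem_primitiveRoots (by omega)] at hz hw
    rw [sub_eq_zero] at h0
    rw [h0] at hz
    exact hbc (hz.unique hw)
  have h1 : RR b c = ‖∏ z ∈ primitiveRoots b ℂ, (cyclotomic c ℂ).eval z‖ := by
    unfold RR
    rw [norm_prod]
    refine Finset.prod_congr rfl fun z hz => ?_
    rw [Finset.erase_eq_of_notMem, res1_prim c hc, eval_prod, norm_prod]
    · refine Finset.prod_congr rfl fun w _ => ?_
      simp
    · intro hz'
      exact hne z hz z hz' (sub_self z)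
  have hroots : (cyclotomic b ℂ).roots = (primitiveRoots b ℂ).val := by
    rw [res1_prim b hb, roots_prod_X_sub_C]
  have h2 : resultant (cyclotomic b ℂ) (cyclotomic c ℂ) (cyclotomic b ℂ).natDegree
      (cyclotomic c ℂ).natDegree = ∏ z ∈ primitiveRoots b ℂ, (cyclotomic c ℂ).eval z := by
    rw [resultant_eq_prod_eval _ _ _ le_rfl (IsAlgClosed.splits _), (cyclotomic.monic b ℂ).leadingCoeff,
      one_pow, one_mul, hroots]
    rfl
  have h3 : ((resultant (cyclotomic b ℤ) (cyclotomic c ℤ) (cyclotomic b ℂ).natDegree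
      (cyclotomic c ℂ).natDegree : ℤ) : ℂ) = ∏ z ∈ primitiveRoots b ℂ, (cyclotomic c ℂ).eval z := by
    rw [← h2, ← map_cyclotomic_int b ℂ, ← map_cyclotomic_int c ℂ]
    exact (resultant_map_map _ _ _ _ (Int.castRingHom ℂ)).symm
  have h4 : ∏ z ∈ primitiveRoots b ℂ, (cyclotomic c ℂ).eval z ≠ 0 := by
    rw [Finset.prod_ne_zero_iff]
    intro z hz
    rw [res1_prim c hc, eval_prod, Finset.prod_ne_zero_iff]
    intro w hw
    simpa using hne z hz w hw
  rw [h1, ← h3, Complex.norm_intCast]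
  rw [← h3] at h4
  have h5 : (resultant (cyclotomic b ℤ) (cyclotomic c ℤ) (cyclotomic b ℂ).natDegree
      (cyclotomic c ℂ).natDegree : ℤ) ≠ 0 := by
    intro h; rw [h] at h4; simp at h4
  exact_mod_cast Int.one_le_abs h5

end Pool.Agent.Q299.ML
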